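import Pool.Agent.Work.MP_954b6f_h30.Band
import Pool.Agent.Work.MP_954b6f_h30.Strip3

/-!
`d(s,t)` is the supremum of the average degrees `2|E|/|V|` of the `K_{s,t}`-free bipartite circle
graphs.  For all `1 ≤ s ≤ t`, `t ≥ 2`,

  `(t-1) + 2(s-1) - 8(s-1)²/(t-1) ≤ d(s,t) ≤ (t-1) + 2(s-1)`,

so that `d(s,t) - t` tends to `2s - 3` for `t → ∞` and fixed `s`.
-/

namespace Pool.Agent.Results.MP_954b6f_co.AsymptoticSharp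

theorem result (s t : ℕ) (hs : 1 ≤ s) (hst : s ≤ t) (ht : 2 ≤ t) :
    ∃ d : ℝ, IsLUB (CircleKst.avgDegrees s t) d ∧
      d ≤ 2 * ((s : ℝ) - 1) + ((t : ℝ) - 1) ∧
      2 * ((s : ℝ) - 1) + ((t : ℝ) - 1) - 8 * ((s : ℝ) - 1) ^ 2 / ((t : ℝ) - 1) ≤ d ∧
      ((s : ℝ) - 1) + ((t : ℝ) - 1) ≤ d ∧
      (4 * ((s : ℝ) - 1) ≤ (t : ℝ) - 1 →
        2 * ((s : ℝ) - 1) + ((t : ℝ) - 1) -
          4 * ((s : ℝ) - 1) ^ 2 / (((t : ℝ) - 1) - 2 * ((s : ℝ) - 1)) ≤ d) := by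
  have hU : ∀ s t : ℕ, 1 ≤ s → s ≤ t → 2 * ((s : ℝ) - 1) + ((t : ℝ) - 1) ∈
      upperBounds (CircleKst.avgDegrees s t) := by
    intro s t hs hst x hx
    exact (CGr.upper_bounds hs hst hx).1
  have hne : ∀ s t : ℕ, 1 ≤ s → s ≤ t → (CircleKst.avgDegrees s t).Nonempty := by
    intro s t hs hst
    obtain ⟨σ, rfl⟩ : ∃ σ, s = σ + 1 := ⟨s - 1, by omega⟩
    obtain ⟨τ, rfl⟩ : ∃ τ, t = τ + 1 := ⟨t - 1, by omega⟩
    have : Nonempty (Fin (1 + (σ + τ)) ⊕ Fin (1 + (σ + τ))) := ⟨Sum.inl ⟨0, by omega⟩⟩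
    exact ⟨_, CGr.mem_avg (G := CG30.band (1 + (σ + τ)) (σ + τ)) (s := σ + 1) (t := τ + 1)
      ⟨CG30.band_circle, CG30.band_colorable, CG30.band_free rfl⟩⟩
  have hB : ∀ s t : ℕ, 1 ≤ s → s ≤ t → ∀ u ∈ upperBounds (CircleKst.avgDegrees s t),
      ((s : ℝ) - 1) + ((t : ℝ) - 1) ≤ u := by
    intro s t hs hst u hu
    obtain ⟨σ, rfl⟩ : ∃ σ, s = σ + 1 := ⟨s - 1, by omega⟩
    obtain ⟨τ, rfl⟩ : ∃ τ, t = τ + 1 := ⟨t - 1, by omega⟩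
    have := CG30.band_bound hu
    push_cast
    linarith
  have hS : ∀ s t : ℕ, 1 ≤ s → 2 ≤ t → 4 * ((s : ℝ) - 1) ≤ (t : ℝ) - 1 →
      ∀ u ∈ upperBounds (CircleKst.avgDegrees s t),
      2 * ((s : ℝ) - 1) + ((t : ℝ) - 1) -
        4 * ((s : ℝ) - 1) ^ 2 / (((t : ℝ) - 1) - 2 * ((s : ℝ) - 1)) ≤ u := by
    intro s t hs ht h4 u hu
    obtain ⟨σ, rfl⟩ : ∃ σ, s = σ + 1 := ⟨s - 1, by omega⟩
    obtain ⟨τ, rfl⟩ : ∃ τ, t = τ + 1 := ⟨t - 1, by omega⟩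
    push_cast at h4 ⊢
    have h5 : 4 * σ ≤ τ := by
      have : (4 : ℝ) * σ ≤ τ := by linarith
      exact_mod_cast this
    have h0 : 0 < τ := by omega
    have h6 := CG30.strip_bound h5 h0 hu
    have h7 : (0 : ℝ) < (τ : ℝ) - 2 * σ := by
      have h8 : (4 : ℝ) * σ ≤ τ := by exact_mod_cast h5
      have h9 : (0 : ℝ) < τ := by exact_mod_cast h0
      have h10 : (0 : ℝ) ≤ σ := by positivity
      linarith
    have h8 : 2 * ((σ : ℝ) + 1 - 1) + ((τ : ℝ) + 1 - 1) -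
        4 * ((σ : ℝ) + 1 - 1) ^ 2 / ((τ : ℝ) + 1 - 1 - 2 * ((σ : ℝ) + 1 - 1)) =
        ((τ : ℝ) ^ 2 - 8 * σ ^ 2) / (τ - 2 * σ) := by
      have h9 : (τ : ℝ) + 1 - 1 - 2 * ((σ : ℝ) + 1 - 1) = τ - 2 * σ := by ring
      rw [h9]
      field_simp
      ring
    rw [h8]
    exact h6
  have hE : ∀ s t : ℕ, 1 ≤ s → s ≤ t → 2 ≤ t →
      ∀ u ∈ upperBounds (CircleKst.avgDegrees s t),
      2 * ((s : ℝ) - 1) + ((t : ℝ) - 1) - 8 * ((s : ℝ) - 1) ^ 2 / ((t : ℝ) - 1) ≤ u := by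
    intro s t hs hst ht u hu
    have hs' : (1 : ℝ) ≤ s := by exact_mod_cast hs
    have ht' : (2 : ℝ) ≤ t := by exact_mod_cast ht
    have hpos : (0 : ℝ) < (t : ℝ) - 1 := by linarith
    by_cases h4 : 4 * ((s : ℝ) - 1) ≤ (t : ℝ) - 1
    · refine le_trans ?_ (hS s t hs ht h4 u hu)
      have h5 : (0 : ℝ) < ((t : ℝ) - 1) - 2 * ((s : ℝ) - 1) := by linarith
      have h6 : 4 * ((s : ℝ) - 1) ^ 2 / (((t : ℝ) - 1) - 2 * ((s : ℝ) - 1)) ≤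
          8 * ((s : ℝ) - 1) ^ 2 / ((t : ℝ) - 1) := by
        rw [div_le_div_iff₀ h5 hpos]
        nlinarith [mul_nonneg (sq_nonneg ((s : ℝ) - 1)) (by linarith :
          (0 : ℝ) ≤ ((t : ℝ) - 1) - 4 * ((s : ℝ) - 1))]
      linarith
    · rw [not_le] at h4
      refine le_trans ?_ (hB s t hs hst u hu)
      have h6 : (s : ℝ) - 1 ≤ 8 * ((s : ℝ) - 1) ^ 2 / ((t : ℝ) - 1) := by
        rw [le_div_iff₀ hpos]
        nlinarith [mul_nonneg (by linarith : (0 : ℝ) ≤ (s : ℝ) - 1)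
          (by linarith : (0 : ℝ) ≤ 4 * ((s : ℝ) - 1) - ((t : ℝ) - 1)),
          sq_nonneg ((s : ℝ) - 1)]
      linarith
  have hlub := isLUB_csSup (hne s t hs hst) ⟨_, hU s t hs hst⟩
  exact ⟨_, hlub, hlub.2 (hU s t hs hst), hE s t hs hst ht _ hlub.1, hB s t hs hst _ hlub.1,
    fun h4 => hS s t hs ht h4 _ hlub.1⟩

end Pool.Agent.Results.MP_954b6f_co.AsymptoticSharp
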