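import Pool.Agent.Work.MP_954b6f_co_helper49.Main

/-!
`d(s,s) = 2 √2 (s - 1)` for every `s ≥ 1`: the supremum of the average degrees `2|E|/|V|` of the
`K_{s,s}`-free bipartite circle graphs.
-/

theorem Pool.Agent.Results.MP_954b6f_co.DiagonalValue.result (s : ℕ) (hs : 1 ≤ s) :
    IsLUB (CircleKst.avgDegrees s s) (2 * Real.sqrt 2 * ((s : ℝ) - 1)) :=
  CGr.main_eq s hs
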