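import Pool.Agent.Work.MP_954b6f_co_helper49.Main

/-!
Two upper bounds for the average degree of a `K_{s,t}`-free bipartite circle graph, for all
`1 ≤ s ≤ t`.
-/

theorem Pool.Agent.Results.MP_954b6f_co.UpperBounds.result (s t : ℕ) (hs : 1 ≤ s) (hst : s ≤ t)
    (x : ℝ) (hx : x ∈ CircleKst.avgDegrees s t) :
    x ≤ 2 * ((s : ℝ) - 1) + ((t : ℝ) - 1) ∧
    x ≤ (((s : ℝ) - 1) - ((t : ℝ) - 1) +
      Real.sqrt (((s : ℝ) - 1) ^ 2 + 22 * ((s : ℝ) - 1) * ((t : ℝ) - 1) +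
        9 * ((t : ℝ) - 1) ^ 2)) / 2 :=
  CGr.upper_bounds hs hst hx
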